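import Pool.Agent.N206.HJ.Stm

/-!
Project HJ, task BLOW: lifting automorphisms to the blow-up.
-/

set_option autoImplicit false

namespace Pool.Agent.N591.HJ

open Pool.Agent.N206.HJ MvPowerSeries

variable {p : ℕ}

/-- the images of the variables under the blow-up -/
noncomputable def bx (p : ℕ) : Fin 3 → A p := ![X 0, X 0 * X 1, X 0 * X 2]

theorem bx_mem (i : Fin 3) : bx p i ∈ M p 1 := by
  fin_cases i
  · exact X_mem 0
  · exact M_mul_left (X_mem 1)
  · exact M_mul_left (X_mem 2)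

theorem bx_dvd (i : Fin 3) : (X 0 : A p) ∣ bx p i := by
  fin_cases i
  · exact dvd_refl _
  · exact Dvd.intro _ rfl
  · exact Dvd.intro _ rfl

theorem bx_subst : HasSubst (bx p) := by
  refine hasSubst_of_constantCoeff_zero fun i => ?_
  have := bx_mem (p := p) i 0 (by simp)
  rwa [coeff_zero_eq_constantCoeff] at this

/-- the blow-up -/
noncomputable def be (p : ℕ) : A p →ₐ[ZMod p] A p := substAlgHom (bx_subst (p := p))

theorem be_X (i : Fin 3) : be p (X i) = bx p i := substAlgHom_X _ i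

theorem be_dvd {i : ℕ} {f : A p} (hf : f ∈ M p i) : (X 0 : A p) ^ i ∣ be p f := by
  rw [X_pow_dvd_iff]
  intro γ hγ
  rw [be, substAlgHom_apply, coeff_subst bx_subst]
  apply finsum_eq_zero_of_forall_eq_zero
  intro α
  by_cases h : α.degree < i
  · rw [hf α h, zero_smul]
  · have h1 : (X 0 : A p) ^ i ∣ α.prod fun s e => bx p s ^ e := by
      have h2 : (X 0 : A p) ^ α.degree ∣ α.prod fun s e => bx p s ^ e := by
        rw [Finsupp.degree_apply, ← Finset.prod_pow_eq_pow_sum]
        exact Finset.prod_dvd_prod_of_dvd _ _ fun s _ => pow_dvd_pow_of_dvd (bx_dvd s) _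
      exact (pow_dvd_pow _ (not_lt.1 h)).trans h2
    rw [X_pow_dvd_iff] at h1
    rw [h1 γ hγ, smul_zero]

theorem be_mem {i : ℕ} {f : A p} (hf : f ∈ M p i) : be p f ∈ M p i := by
  obtain ⟨f', hf'⟩ := be_dvd hf
  rw [hf']
  exact M_mul_right (Xpow_mem 0 i)

/-- continuous endomorphisms are determined by the images of the variables -/
theorem hom_ext (F G : A p →ₐ[ZMod p] A p) (hF : ∀ N, ∀ f ∈ M p N, F f ∈ M p N)
    (hG : ∀ N, ∀ f ∈ M p N, G f ∈ M p N) (hX : ∀ i, F (X i) = G (X i)) (f : A p) :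
    F f = G f := by
  have hpoly : ∀ P : MvPolynomial (Fin 3) (ZMod p), F (P : A p) = G (P : A p) := by
    intro P
    induction P using MvPolynomial.induction_on with
    | C a =>
      have h0 : ((MvPolynomial.C a : MvPolynomial (Fin 3) (ZMod p)) : A p) =
          algebraMap (ZMod p) (A p) a := by
        rw [MvPolynomial.coe_C, MvPowerSeries.algebraMap_apply]
        rfl
      rw [h0, AlgHom.commutes, AlgHom.commutes]
    | add P Q hP hQ => rw [MvPolynomial.coe_add, map_add, map_add, hP, hQ]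
    | mul_X P i hP => rw [MvPolynomial.coe_mul, map_mul, map_mul, hP, MvPolynomial.coe_X, hX]
  rw [← sub_eq_zero]
  refine M_all fun N => ?_
  have h1 : f - ((truncTotal N f : MvPolynomial (Fin 3) (ZMod p)) : A p) ∈ M p N := by
    intro α hα
    rw [map_sub, MvPolynomial.coeff_coe, coeff_truncTotal _ hα, sub_self]
  have h2 : F f - G f = F (f - ((truncTotal N f : MvPolynomial (Fin 3) (ZMod p)) : A p)) -
      G (f - ((truncTotal N f : MvPolynomial (Fin 3) (ZMod p)) : A p)) := by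
    rw [map_sub, map_sub, hpoly]
    ring
  rw [h2]
  exact Ideal.sub_mem _ (hF N _ h1) (hG N _ h1)

theorem exists_psi (h1 : S_EXIST p) {k : ℕ} (hk : 2 ≤ k) {g : Au p} (hg : g ∈ Ga p k) :
    ∃ ψ ∈ Ga p (k - 1), ∀ f, ψ (be p f) = be p (g f) := by
  have hδ : ∀ i, ∃ d : A p, be p (g (X i) - X i) = X 0 ^ (k + 1) * d := fun i =>
    be_dvd (Ga_X hg i)
  choose d hd using hδ
  have hU : IsUnit (1 + X 0 ^ k * d 0 : A p) := by
    rw [isUnit_iff_constantCoeff, map_add, map_mul, map_pow, constantCoeff_X,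
      zero_pow (by omega), zero_mul, add_zero, map_one]
    exact isUnit_one
  obtain ⟨V, hV⟩ := hU.exists_right_inv
  have hXk : (X 0 : A p) ^ k ∈ M p k := Xpow_mem 0 k
  obtain ⟨ψ, hψ, hψX⟩ := h1 (k - 1) (by omega)
    ![X 0 ^ (k + 1) * d 0, (X 1 + X 0 ^ k * d 1) * V - X 1, (X 2 + X 0 ^ k * d 2) * V - X 2] (by
      have e1 : k - 1 + 1 = k := by omega
      have e2 : ∀ i : Fin 3, (X i + X 0 ^ k * d i) * V - X i =
          X 0 ^ k * ((d i - X i * d 0) * V) := by
        intro i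
        linear_combination (X i) * hV
      rw [e1]
      intro i
      fin_cases i
      · exact M_mul_right (M_anti (Nat.le_succ k) (Xpow_mem 0 (k + 1)))
      · change (X 1 + X 0 ^ k * d 1) * V - X 1 ∈ M p k
        rw [e2]
        exact M_mul_right hXk
      · change (X 2 + X 0 ^ k * d 2) * V - X 2 ∈ M p k
        rw [e2]
        exact M_mul_right hXk)
  refine ⟨ψ, hψ, ?_⟩
  have hx0 : ψ (X 0) = X 0 * (1 + X 0 ^ k * d 0) := by
    rw [hψX 0]
    change X 0 + X 0 ^ (k + 1) * d 0 = _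
    ring
  have hx1 : ψ (X 1) = (X 1 + X 0 ^ k * d 1) * V := by
    rw [hψX 1]
    change X 1 + ((X 1 + X 0 ^ k * d 1) * V - X 1) = _
    ring
  have hx2 : ψ (X 2) = (X 2 + X 0 ^ k * d 2) * V := by
    rw [hψX 2]
    change X 2 + ((X 2 + X 0 ^ k * d 2) * V - X 2) = _
    ring
  have hbX : ∀ i, be p (g (X i)) = bx p i + X 0 ^ (k + 1) * d i := by
    intro i
    have := hd i
    rw [map_sub, be_X] at this
    rw [← this]
    ring
  have key := hom_ext ((ψ : A p →ₐ[ZMod p] A p).comp (be p))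
    ((be p).comp (g : A p →ₐ[ZMod p] A p)) (fun N f hf => Ga_pres hψ (be_mem hf))
    (fun N f hf => be_mem (Ga_pres hg hf)) (by
      intro i
      change ψ (be p (X i)) = be p (g (X i))
      rw [hbX i, be_X]
      fin_cases i
      · change ψ (X 0) = X 0 + X 0 ^ (k + 1) * d 0
        rw [hx0]
        ring
      · change ψ (X 0 * X 1) = X 0 * X 1 + X 0 ^ (k + 1) * d 1
        rw [map_mul, hx0, hx1]
        linear_combination (X 0 * (X 1 + X 0 ^ k * d 1)) * hV
      · change ψ (X 0 * X 2) = X 0 * X 2 + X 0 ^ (k + 1) * d 2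
        rw [map_mul, hx0, hx2]
        linear_combination (X 0 * (X 2 + X 0 ^ k * d 2)) * hV)
  exact key

theorem X0_ne [Fact p.Prime] : (X 0 : A p) ≠ 0 := by
  intro h
  have h2 := congrArg (coeff (Finsupp.single (0 : Fin 3) 1)) h
  rw [coeff_index_single_self_X, coeff_zero] at h2
  exact one_ne_zero h2

theorem uniq [Fact p.Prime] (h2 : S_DET2 p) {ψ ψ' : Au p} (hψ : ψ ∈ Ga p 1) (hψ' : ψ' ∈ Ga p 1)
    (h : ∀ f, ψ (be p f) = ψ' (be p f)) : ψ = ψ' := by
  have h0 : ψ (X 0) = ψ' (X 0) := by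
    have := h (X 0)
    rwa [be_X] at this
  have hne : ψ' (X 0) ≠ 0 := by
    intro h3
    exact X0_ne (ψ'.injective (by rw [h3, map_zero]))
  refine h2.1 ψ hψ ψ' hψ' fun i => ?_
  fin_cases i
  · exact h0
  · have h3 := h (X 1)
    rw [be_X] at h3
    change ψ (X 0 * X 1) = ψ' (X 0 * X 1) at h3
    rw [map_mul, map_mul, h0] at h3
    exact mul_left_cancel₀ hne h3
  · have h3 := h (X 2)
    rw [be_X] at h3
    change ψ (X 0 * X 2) = ψ' (X 0 * X 2) at h3
    rw [map_mul, map_mul, h0] at h3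
    exact mul_left_cancel₀ hne h3

theorem t_BLOW (p : ℕ) [Fact p.Prime] (h1 : S_EXIST p) (h2 : S_DET2 p) : S_BLOW p := by
  have hex : ∀ g : Ga p 2, ∃ ψ ∈ Ga p 1, ∀ f, ψ (be p f) = be p ((g : Au p) f) := fun g =>
    exists_psi h1 le_rfl g.2
  choose φ hφ hφb using hex
  have hmul : ∀ a b : Ga p 2, φ (a * b) = φ a * φ b := by
    intro a b
    refine uniq h2 (hφ _) (mul_mem (hφ a) (hφ b)) fun f => ?_
    rw [hφb, mul_ap, hφb b, hφb a]
    rfl
  refine ⟨MonoidHom.mk' φ hmul, ?_, ?_⟩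
  · intro k hk g hg
    obtain ⟨ψ, hψ, hψb⟩ := exists_psi h1 hk hg
    have : φ g = ψ := uniq h2 (hφ g) (Ga_anti (by omega) hψ) fun f => by rw [hφb, hψb]
    change φ g ∈ Ga p (k - 1)
    rw [this]
    exact hψ
  · intro N hN g hg
    change Tr 1 (X 0 ^ (N - 1)) (φ g)
    have e0 : φ g (X 0) = X 0 := by
      have := hφb g (X 0)
      rw [hg.2 0 (by decide), be_X] at this
      exact this
    refine ⟨?_, ?_⟩
    · have h3 := hφb g (X 1)
      rw [hg.1, map_add, map_pow, be_X, be_X] at h3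
      change φ g (X 0 * X 1) = X 0 * X 1 + X 0 ^ N at h3
      rw [map_mul, e0] at h3
      refine mul_left_cancel₀ X0_ne (h3.trans ?_)
      obtain ⟨m, rfl⟩ : ∃ m, N = m + 1 := ⟨N - 1, by omega⟩
      rw [Nat.add_sub_cancel]
      ring
    · intro i hi
      fin_cases i
      · exact e0
      · exact absurd rfl hi
      · have h3 := hφb g (X 2)
        rw [hg.2 2 (by decide), be_X] at h3
        change φ g (X 0 * X 2) = X 0 * X 2 at h3
        rw [map_mul, e0] at h3
        exact mul_left_cancel₀ X0_ne h3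

end Pool.Agent.N591.HJ
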